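import Pool.Agent.H97.SHL.Targets

/-! Row DEC: decompositions exist. -/

set_option autoImplicit false

namespace Pool.Agent.H78.SHL

open Finset Pool.Agent.H97.SHL

/-- the decomposition with a bound for the number of the parts -/
structure Dx {m B : ℕ} (s : ℕ) (Q : Finset (Pt m B))
    (𝒟 : Finset (Finset (Pt m B) × Finset (Fin m))) : Prop where
  sub : ∀ p ∈ 𝒟, p.1 ⊆ Q
  ne : ∀ p ∈ 𝒟, p.1.Nonempty
  dis : ∀ p ∈ 𝒟, ∀ p' ∈ 𝒟, p ≠ p' → Disjoint p.1 p'.1
  cov : ∀ x ∈ Q, ∃ p ∈ 𝒟, x ∈ p.1
  agr : ∀ p ∈ 𝒟, Agr p.1 p.2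
  spr : ∀ p ∈ 𝒟, Spr s p.1 p.2
  num : Q.Nonempty → ∀ k : ℕ, ((𝒟.filter fun p => p.2.card = k).card : ℝ) ≤
    1 + (s : ℝ) ^ k * Real.log Q.card
  cls : ∀ C : Finset (Fin m), Agr Q C → ∀ p ∈ 𝒟, C ⊆ p.2

theorem exists_dx (hDC1 : T_DC1) {m B s : ℕ} (hs : 1 ≤ s) (n : ℕ) :
    ∀ Q : Finset (Pt m B), Q.card ≤ n → ∃ 𝒟 : Finset (Finset (Pt m B) × Finset (Fin m)),
      Dx s Q 𝒟 := by
  classical
  induction n with
  | zero =>
    intro Q hQ
    have hQ0 : Q = ∅ := card_eq_zero.1 (by omega)
    subst hQ0
    refine ⟨∅, ?_, ?_, ?_, ?_, ?_, ?_, ?_, ?_⟩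
    · intro p hp; exact absurd hp (notMem_empty _)
    · intro p hp; exact absurd hp (notMem_empty _)
    · intro p hp; exact absurd hp (notMem_empty _)
    · intro x hx; exact absurd hx (notMem_empty _)
    · intro p hp; exact absurd hp (notMem_empty _)
    · intro p hp; exact absurd hp (notMem_empty _)
    · intro h; exact absurd h not_nonempty_empty
    · intro C _ p hp; exact absurd hp (notMem_empty _)
  | succ n ih =>
    intro Q hQ
    rcases Q.eq_empty_or_nonempty with hQ0 | hne
    · exact ih Q (by rw [hQ0, card_empty]; omega)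
    obtain ⟨K, z, h1, h2, h3⟩ := hDC1 m B s Q hs hne
    obtain ⟨P, hP⟩ : ∃ P, P = fx Q K z := ⟨_, rfl⟩
    rw [← hP] at h1 h2
    have hPQ : P ⊆ Q := by rw [hP]; exact filter_subset _ _
    have hPne : P.Nonempty := by
      rw [nonempty_iff_ne_empty]
      rintro h0
      rw [h0, card_empty, zero_mul] at h1
      have := card_pos.2 hne
      omega
    have hPa : Agr P K := by
      intro x hx y hy i hi
      rw [hP] at hx hy
      rw [(mem_filter.1 hx).2 i hi, (mem_filter.1 hy).2 i hi]
    have hcard : (Q \ P).card + P.card = Q.card := card_sdiff_add_card_eq_card hPQ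
    have hPpos := card_pos.2 hPne
    obtain ⟨𝒟', hD⟩ := ih (Q \ P) (by omega)
    have hsub' : ∀ p ∈ 𝒟', Disjoint P p.1 := by
      intro p hp
      exact disjoint_of_subset_right (hD.sub p hp) disjoint_sdiff
    refine ⟨insert (P, K) 𝒟', ?_, ?_, ?_, ?_, ?_, ?_, ?_, ?_⟩
    · intro p hp
      rcases mem_insert.1 hp with rfl | hp
      · exact hPQ
      · exact (hD.sub p hp).trans sdiff_subset
    · intro p hp
      rcases mem_insert.1 hp with rfl | hp
      · exact hPne
      · exact hD.ne p hp
    · intro p hp p' hp' hpp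
      rcases mem_insert.1 hp with rfl | hp
      · rcases mem_insert.1 hp' with rfl | hp'
        · exact absurd rfl hpp
        · exact hsub' p' hp'
      · rcases mem_insert.1 hp' with rfl | hp'
        · exact (hsub' p hp).symm
        · exact hD.dis p hp p' hp' hpp
    · intro x hx
      by_cases hxP : x ∈ P
      · exact ⟨(P, K), mem_insert_self _ _, hxP⟩
      · obtain ⟨p, hp, hxp⟩ := hD.cov x (mem_sdiff.2 ⟨hx, hxP⟩)
        exact ⟨p, mem_insert_of_mem hp, hxp⟩
    · intro p hp
      rcases mem_insert.1 hp with rfl | hp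
      · exact hPa
      · exact hD.agr p hp
    · intro p hp
      rcases mem_insert.1 hp with rfl | hp
      · exact h2
      · exact hD.spr p hp
    · intro _ k
      have hq0 : (0 : ℝ) < Q.card := by exact_mod_cast card_pos.2 hne
      have hlog : 0 ≤ Real.log Q.card := Real.log_natCast_nonneg _
      have hs0 : (0 : ℝ) ≤ (s : ℝ) ^ k := by positivity
      rw [filter_insert]
      rcases (Q \ P).eq_empty_or_nonempty with h0 | h0
      · have hD0 : 𝒟' = ∅ := by
          rw [eq_empty_iff_forall_notMem]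
          intro p hp
          have h4 := hD.sub p hp
          rw [h0, subset_empty] at h4
          exact (hD.ne p hp).ne_empty h4
        have h5 : ((if K.card = k then insert (P, K) (filter (fun p => p.2.card = k) 𝒟') else
            filter (fun p => p.2.card = k) 𝒟').card : ℝ) ≤ 1 := by
          rw [hD0, filter_empty]
          split_ifs <;> simp
        refine h5.trans ?_
        have := mul_nonneg hs0 hlog
        linarith
      · have hnum := hD.num h0 k
        have hq0' : (0 : ℝ) < (Q \ P).card := by exact_mod_cast card_pos.2 h0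
        have hcr : ((Q \ P).card : ℝ) + P.card = Q.card := by exact_mod_cast hcard
        split_ifs with hk
        · have h5 : ((insert (P, K) (filter (fun p => p.2.card = k) 𝒟')).card : ℝ) ≤
              (filter (fun p => p.2.card = k) 𝒟').card + 1 := by
            exact_mod_cast card_insert_le _ _
          have h6 := Real.one_sub_inv_le_log_of_pos (div_pos hq0 hq0')
          rw [Real.log_div hq0.ne' hq0'.ne', inv_div] at h6
          have h7 : (1 : ℝ) ≤ (s : ℝ) ^ k * (1 - ((Q \ P).card : ℝ) / Q.card) := by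
            have h8 : 1 - ((Q \ P).card : ℝ) / Q.card = P.card / Q.card := by
              rw [eq_div_iff hq0.ne', sub_mul, div_mul_cancel₀ _ hq0.ne']
              linarith
            rw [h8, ← mul_div_assoc, le_div_iff₀ hq0, one_mul]
            have h9 : (Q.card : ℝ) ≤ P.card * (s : ℝ) ^ K.card := by exact_mod_cast h1
            rw [hk] at h9
            linarith
          have h10 := mul_le_mul_of_nonneg_left h6 hs0
          linarith
        · have h5 : Real.log ((Q \ P).card : ℝ) ≤ Real.log Q.card := by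
            refine Real.log_le_log hq0' ?_
            have : (0 : ℝ) ≤ (P.card : ℝ) := Nat.cast_nonneg _
            linarith
          have h10 := mul_le_mul_of_nonneg_left h5 hs0
          linarith
    · intro C hC p hp
      rcases mem_insert.1 hp with rfl | hp
      · exact h3 C hC
      · refine hD.cls C ?_ p hp
        intro x hx y hy
        exact hC x (mem_sdiff.1 hx).1 y (mem_sdiff.1 hy).1

theorem pf_DEC (hDC1 : T_DC1) : T_DEC := by
  intro m B s Q hB hs
  obtain ⟨𝒟, hD⟩ := exists_dx hDC1 hs Q.card Q le_rfl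
  refine ⟨𝒟, hD.sub, hD.ne, hD.dis, hD.cov, hD.agr, hD.spr, ?_, hD.cls⟩
  intro k
  have hlB : 0 ≤ Real.log (B : ℝ) := Real.log_natCast_nonneg _
  have hs1 : (1 : ℝ) ≤ (s : ℝ) ^ k := one_le_pow₀ (by exact_mod_cast hs)
  have hlg : 0 ≤ (m : ℝ) * Real.log B := mul_nonneg (Nat.cast_nonneg _) hlB
  rcases Q.eq_empty_or_nonempty with h0 | h0
  · have hD0 : 𝒟 = ∅ := by
      rw [eq_empty_iff_forall_notMem]
      intro p hp
      have h4 := hD.sub p hp
      rw [h0, subset_empty] at h4
      exact (hD.ne p hp).ne_empty h4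
    rw [hD0, filter_empty, card_empty, Nat.cast_zero]
    unfold lg
    positivity
  · refine (hD.num h0 k).trans ?_
    have h1 : Real.log (Q.card : ℝ) ≤ m * Real.log B := by
      have h2 : Q.card ≤ B ^ m := by
        have h3 := card_le_univ Q
        rwa [Fintype.card_fun, Fintype.card_fin, Fintype.card_fin] at h3
      have h4 : (Q.card : ℝ) ≤ (B : ℝ) ^ m := by exact_mod_cast h2
      have h5 : (0 : ℝ) < Q.card := by exact_mod_cast card_pos.2 h0
      have h6 := Real.log_le_log h5 h4
      rwa [Real.log_pow] at h6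
    unfold lg
    have h7 := mul_le_mul_of_nonneg_left h1 (by linarith : (0 : ℝ) ≤ (s : ℝ) ^ k)
    nlinarith

end Pool.Agent.H78.SHL
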