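import Pool.Agent.H97.SHL.Targets

/-! Row FML: the formula. -/

set_option autoImplicit false

namespace Pool.Agent.H78.SHL

open Finset Pool.Agent.H97.SHL

theorem pf_FML : T_FML := by
  intro n m B q b emb cl G hE hqm
  refine ⟨?_, ?_, ?_⟩
  · unfold fm
    refine card_image_le.trans ((card_filter_le _ _).trans ?_)
    rw [card_univ, Fintype.card_prod, Fintype.card_prod, Fintype.card_fin, Fintype.card_fin]
    exact le_of_eq (sq _).symm
  · intro C hC
    unfold fm at hC
    rw [mem_image] at hC
    obtain ⟨t, _, rfl⟩ := hC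
    refine (card_union_le _ _).trans ?_
    have h1 := hE.wid t.1.1 t.1.2
    have h2 := hE.wid t.2.1 t.2.2
    omega
  · intro z
    obtain ⟨x, hx⟩ := hE.all z
    obtain ⟨i, i', hne, heq⟩ := Fintype.exists_ne_map_eq_of_card_lt (fun i : Fin m => G i (x i))
      (by rw [Fintype.card_fin, Fintype.card_fin]; exact hqm)
    refine ⟨cl i (x i) ∪ cl i' (x i'), ?_, ?_⟩
    · unfold fm
      rw [mem_image]
      exact ⟨((i, x i), (i', x i')), mem_filter.2 ⟨mem_univ _, hne, heq⟩, rfl⟩
    · intro l hl
      rcases mem_union.1 hl with h | h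
      · exact hx i l h
      · exact hx i' l h

end Pool.Agent.H78.SHL
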